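import Pool.Agent.H31.LV.Basic
import Pool.Agent.H31.LV.Targets

/-!
# Power saving above the square root barrier: long lines (DL)
-/

set_option autoImplicit false

open Finset MeasureTheory

namespace Pool.Agent.H80.LVP

open Pool.Agent.H24.CL Pool.Agent.H24.LV Pool.Agent.H31.LV

theorem pf_wDL (hWI : W_WI) (hVH : W_VH) (hDD : W_DD) : W_DL := by
  intro k hk
  obtain ⟨CW, hCW, hWI'⟩ := hWI (k - 1)
  obtain ⟨CD, hCD, hDD'⟩ := hDD k
  have hCW0 : 0 < CW := by linarith
  have hCD0 : 0 < CD := by linarith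
  set K : ℝ := (Nat.factorial k : ℝ) with hK
  have hK1 : 1 ≤ K := by
    rw [hK]
    exact_mod_cast Nat.factorial_pos k
  set P : ℝ := (K + 16 * CD) * CW * 8 ^ CW with hP
  have h8 : 0 < (8 : ℝ) ^ CW := by positivity
  have hP0 : 0 ≤ P := by positivity
  refine ⟨P + (CW + 1), by linarith, ?_⟩
  intro D N b c M hD hL hM hMN hVD
  have hM0 : 0 < M := by linarith
  have hNR : 16 ≤ (N : ℝ) := by linarith
  have hN0 : 0 < (N : ℝ) := by linarith
  have hN1 : 1 ≤ N := by
    have : (1 : ℝ) ≤ N := by linarith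
    exact_mod_cast this
  have hD0 : 0 < (D : ℝ) := by exact_mod_cast hD
  have hD1 : 1 ≤ (D : ℝ) := by exact_mod_cast hD
  set I : ℕ → ℝ := fun h => ‖(1 / ((D : ℂ) * N)) * ∑ m ∈ range (D * (N - h)),
    ee (pl k c ((m : ℝ) + D * h) - pl k c m)‖ with hI
  have hVH' : VD D N b ≤ 1 / N + (2 / N) * ∑ h ∈ Ico 1 N, I h := hVH k D N b c hD hN1 hL
  have hI1 : ∀ h, I h ≤ 1 := by
    intro h
    have h1 : ‖∑ m ∈ range (D * (N - h)), ee (pl k c ((m : ℝ) + D * h) - pl k c m)‖ ≤
        (D : ℝ) * N := by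
      refine (norm_sum_le _ _).trans ?_
      simp only [norm_ee, Finset.sum_const, Finset.card_range, nsmul_eq_mul, mul_one]
      rw [Nat.cast_mul]
      refine mul_le_mul_of_nonneg_left ?_ hD0.le
      exact_mod_cast Nat.sub_le N h
    have h2 : ‖(1 / ((D : ℂ) * N))‖ = 1 / ((D : ℝ) * N) := by
      rw [norm_div, norm_one, norm_mul, Complex.norm_natCast, Complex.norm_natCast]
    simp only [hI]
    rw [norm_mul, h2]
    have h3 : 0 < (D : ℝ) * N := by positivity
    rw [div_mul_eq_mul_div, one_mul, div_le_one h3]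
    exact h1
  have hI0 : ∀ h, 0 ≤ I h := fun h => norm_nonneg _
  -- a good shift
  obtain ⟨h, hh1, hhN, hhM, hIh⟩ : ∃ h : ℕ, 1 ≤ h ∧ h < N ∧ (N : ℝ) / (16 * M) ≤ h ∧
      1 / (8 * M) ≤ I h := by
    by_contra hcon
    push Not at hcon
    have hsum : ∑ h ∈ Ico 1 N, I h ≤ (N : ℝ) / (16 * M) + N * (1 / (8 * M)) := by
      have hsplit : ∀ h ∈ Ico 1 N, I h ≤ (if (h : ℝ) < (N : ℝ) / (16 * M) then 1 else 0) +
          1 / (8 * M) := by
        intro h hh
        rw [Finset.mem_Ico] at hh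
        split_ifs with hc
        · have h4 : 0 ≤ 1 / (8 * M) := by positivity
          linarith [hI1 h]
        · have := hcon h hh.1 hh.2 (not_lt.1 hc)
          linarith
      refine (Finset.sum_le_sum hsplit).trans ?_
      rw [Finset.sum_add_distrib]
      refine add_le_add ?_ ?_
      · rw [Finset.sum_ite, Finset.sum_const_zero, add_zero, Finset.sum_const, nsmul_eq_mul,
          mul_one]
        have hsub : (Ico 1 N).filter (fun h : ℕ => (h : ℝ) < (N : ℝ) / (16 * M)) ⊆
            Ico 1 (⌊(N : ℝ) / (16 * M)⌋₊ + 1) := by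
          intro h hh
          rw [Finset.mem_filter, Finset.mem_Ico] at hh
          rw [Finset.mem_Ico]
          refine ⟨hh.1.1, Nat.lt_succ_of_le (Nat.le_floor hh.2.le)⟩
        have hcard := Finset.card_le_card hsub
        rw [Nat.card_Ico, Nat.add_sub_cancel] at hcard
        have h5 : (⌊(N : ℝ) / (16 * M)⌋₊ : ℝ) ≤ (N : ℝ) / (16 * M) :=
          Nat.floor_le (by positivity)
        have h6 : (((Ico 1 N).filter (fun h : ℕ => (h : ℝ) < (N : ℝ) / (16 * M))).card : ℝ) ≤
            (⌊(N : ℝ) / (16 * M)⌋₊ : ℝ) := by exact_mod_cast hcard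
        linarith
      · rw [Finset.sum_const, nsmul_eq_mul, Nat.card_Ico]
        refine mul_le_mul_of_nonneg_right ?_ (by positivity)
        exact_mod_cast Nat.sub_le N 1
    have h7 : 1 / M ≤ 1 / N + (2 / N) * ((N : ℝ) / (16 * M) + N * (1 / (8 * M))) :=
      (hVD.trans hVH').trans (by
        have := mul_le_mul_of_nonneg_left hsum (by positivity : (0 : ℝ) ≤ 2 / N)
        linarith)
    have h8' : (2 / (N : ℝ)) * ((N : ℝ) / (16 * M) + N * (1 / (8 * M))) = 3 / (8 * M) := by
      field_simp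
      ring
    have h9 : 1 / (N : ℝ) ≤ 1 / (16 * M) := one_div_le_one_div_of_le (by positivity) hMN
    rw [h8'] at h7
    have h10 : 1 / M = 16 / (16 * M) := by field_simp
    have h11 : 3 / (8 * M) = 6 / (16 * M) := by
      field_simp
      norm_num
    have h12 : 0 < 1 / (16 * M) := by positivity
    have h13 : 16 / (16 * M) = 16 * (1 / (16 * M)) := by ring
    have h14 : 6 / (16 * M) = 6 * (1 / (16 * M)) := by ring
    rw [h10, h11, h13, h14] at h7
    linarith
  have hh0 : 0 < (h : ℝ) := by exact_mod_cast hh1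
  -- the sum of the difference polynomial
  have hph : ∀ m : ℕ, ee (pl k c ((m : ℝ) + D * h) - pl k c m) =
      ee (pl k c ((D * h : ℕ) : ℝ)) * ee (pl (k - 1) (dif k (D * h) c) m) := by
    intro m
    rw [← ee_add, ← pl_dif k (D * h) c m]
    push_cast
    rfl
  have hlarge : 1 / (8 * M) * ((D * N : ℕ) : ℝ) ≤
      ‖∑ n ∈ Ico 0 (D * (N - h)), ee (pl (k - 1) (dif k (D * h) c) n)‖ := by
    have h1 : I h = 1 / ((D : ℝ) * N) *
        ‖∑ n ∈ Ico 0 (D * (N - h)), ee (pl (k - 1) (dif k (D * h) c) n)‖ := by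
      simp only [hI]
      rw [norm_mul, norm_div, norm_one, norm_mul, Complex.norm_natCast, Complex.norm_natCast,
        Finset.sum_congr rfl (fun m _ => hph m), ← Finset.mul_sum, norm_mul, norm_ee, one_mul,
        Finset.range_eq_Ico]
    rw [h1] at hIh
    have h3 : 0 < (D : ℝ) * N := by positivity
    rw [div_mul_eq_mul_div, one_mul, le_div_iff₀ h3] at hIh
    rw [Nat.cast_mul]
    exact hIh
  obtain ⟨q1, hq1, hq1le, hq1d⟩ := hWI' (D * N) 0 (D * (N - h)) (dif k (D * h) c) (1 / (8 * M))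
    (Nat.mul_pos hD hN1) (Nat.zero_le _) (Nat.mul_le_mul_left D (Nat.sub_le N h)) (by positivity)
    (by
      rw [div_le_one (by positivity)]
      linarith) hlarge
  set E : ℝ := CW * (1 / (8 * M)) ^ (-CW) with hE
  have hE1 : E = CW * 8 ^ CW * M ^ CW := by
    rw [hE, one_div, Real.inv_rpow (by positivity), Real.rpow_neg (by positivity), inv_inv,
      Real.mul_rpow (by norm_num) hM0.le]
    ring
  have hE0 : 0 ≤ E := by
    rw [hE1]
    positivity
  set Z : ℝ := ((D * N : ℕ) : ℝ) with hZ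
  have hZ1 : 1 ≤ Z := by
    rw [hZ]
    exact_mod_cast Nat.mul_pos hD hN1
  have hZe : Z = (D : ℝ) * N := by
    rw [hZ]
    push_cast
    ring
  have hdd := hDD' q1 (D * h) Z c E (by
      rw [hZ]
      exact_mod_cast Nat.mul_le_mul_left D hhN.le) hZ1 hE0 hq1d
  refine ⟨Nat.factorial k * q1 * h, ?_, ?_, ?_⟩
  · exact Nat.mul_pos (Nat.mul_pos (Nat.factorial_pos k) hq1) hh1
  · have h1 : ((Nat.factorial k * q1 * h : ℕ) : ℝ) = K * q1 * h := by
      push_cast
      ring
    rw [h1]
    have h2 : K * q1 * h ≤ K * E * N := by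
      have h3 : (h : ℝ) ≤ N := by exact_mod_cast hhN.le
      have h4 : K * q1 ≤ K * E := mul_le_mul_of_nonneg_left hq1le (by linarith)
      exact mul_le_mul h4 h3 hh0.le (by positivity)
    refine h2.trans (mul_le_mul_of_nonneg_right ?_ hN0.le)
    have h5 : K * E ≤ P * M ^ CW := by
      rw [hE1, hP]
      have h6 : 0 ≤ CD * (CW * 8 ^ CW * M ^ CW) := by positivity
      have e1 : (K + 16 * CD) * CW * 8 ^ CW * M ^ CW = K * (CW * 8 ^ CW * M ^ CW) +
          16 * (CD * (CW * 8 ^ CW * M ^ CW)) := by ring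
      rw [e1]
      linarith
    have h7 : M ^ CW ≤ M ^ (P + (CW + 1)) :=
      Real.rpow_le_rpow_of_exponent_le hM (by linarith)
    calc K * E ≤ P * M ^ CW := h5
      _ ≤ (P + (CW + 1)) * M ^ (P + (CW + 1)) :=
        mul_le_mul (by linarith) h7 (by positivity) (by linarith)
  · intro j hj1 hjk
    obtain ⟨a, ha⟩ := hdd j hj1 hjk
    refine ⟨a, ?_⟩
    have hq1R : (1 : ℝ) ≤ q1 := by exact_mod_cast hq1
    have hQ : (((Nat.factorial k * q1 * h) * D : ℕ) : ℝ) = K * q1 * (D * h) := by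
      push_cast
      ring
    have hQ' : ((Nat.factorial k * q1 * (D * h) : ℕ) : ℝ) = K * q1 * (D * h) := by
      push_cast
      ring
    rw [hQ'] at ha
    rw [hQ]
    have hpos : 0 < K * q1 * (D * h) := by positivity
    have h1 : c j - a / (K * q1 * (D * h)) = (K * q1 * (D * h) * c j - a) /
        (K * q1 * (D * h)) := by
      field_simp
    rw [h1, abs_div, abs_of_pos hpos, ← hZe]
    have hZpos : 0 < Z := by linarith
    have hlow : Z / (16 * M) ≤ K * q1 * (D * h) := by
      have h2 : Z / (16 * M) = (D : ℝ) * ((N : ℝ) / (16 * M)) := by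
        rw [hZe]
        ring
      rw [h2]
      have h3 : (D : ℝ) * ((N : ℝ) / (16 * M)) ≤ D * h := mul_le_mul_of_nonneg_left hhM hD0.le
      have h4 : (D : ℝ) * h ≤ K * q1 * (D * h) := by
        have h5 : 1 ≤ K * q1 := one_le_mul_of_one_le_of_one_le hK1 hq1R
        have h6 : 0 ≤ (D : ℝ) * h := by positivity
        exact le_mul_of_one_le_left h6 h5
      linarith
    have h7 : |K * q1 * (D * h) * c j - a| / (K * q1 * (D * h)) ≤
        (CD * E / Z ^ j) / (Z / (16 * M)) :=
      div_le_div₀ (by positivity) ha (by positivity) hlow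
    have h8' : (CD * E / Z ^ j) / (Z / (16 * M)) = 16 * M * CD * E / Z ^ (j + 1) := by
      rw [pow_succ]
      field_simp
    rw [h8'] at h7
    refine h7.trans (div_le_div_of_nonneg_right ?_ (by positivity))
    have h9 : 16 * M * CD * E ≤ P * (M ^ CW * M) := by
      rw [hE1, hP]
      have h6 : 0 ≤ K * (CW * 8 ^ CW * (M ^ CW * M)) := by positivity
      have e1 : (K + 16 * CD) * CW * 8 ^ CW * (M ^ CW * M) = K * (CW * 8 ^ CW * (M ^ CW * M)) +
          16 * M * CD * (CW * 8 ^ CW * M ^ CW) := by ring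
      rw [e1]
      linarith
    have h10 : M ^ CW * M = M ^ (CW + 1) := by
      rw [Real.rpow_add hM0, Real.rpow_one]
    rw [h10] at h9
    have h11 : M ^ (CW + 1) ≤ M ^ (P + (CW + 1)) :=
      Real.rpow_le_rpow_of_exponent_le hM (by linarith)
    calc 16 * M * CD * E ≤ P * M ^ (CW + 1) := h9
      _ ≤ (P + (CW + 1)) * M ^ (P + (CW + 1)) :=
        mul_le_mul (by linarith) h11 (by positivity) (by linarith)

end Pool.Agent.H80.LVP
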